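import Pool.Agent.Lib.MP_32fe36_lc.ER.Member

/-!
Recognising graphs with an inside-obstacle representation is complete for the class of the
existential theory of the reals, and NP-hard.
-/

namespace Pool.Agent.Results.MP_32fe36_lc.InsideComplete

open N68a2faeb N793a5b8e Pool.Agent.Lib.MP_32fe36_lc Pool.Agent.Lib.MP_32fe36_lc.ER

open Classical in
/-- Codes of graphs that have an inside-obstacle representation. -/
noncomputable def InsideLang : DecisionProblem := fun w =>
  decide (∃ (V : List ℕ) (E : List (ℕ × ℕ)), w = N487b59b3.bitEncode (V, E) ∧
    HasInsideRep (listGraph (V, E)))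

theorem result : IsCompleteFor ExistsR InsideLang ∧ ∀ L ∈ NP, ManyOneReducible L InsideLang :=
  complete_inside fun _ => by simp only [InsideLang, decide_eq_true_eq]

end Pool.Agent.Results.MP_32fe36_lc.InsideComplete
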