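import Pool.Agent.Lib.MP_32fe36_lc.ER.Multi

/-!
Deciding whether the obstacle number of a graph is at most `k` is complete for the class of the
existential theory of the reals.
-/

namespace Pool.Agent.Results.MP_32fe36_lc.ObstacleNumber

open N68a2faeb N793a5b8e Pool.Agent.Lib.MP_32fe36_lc Pool.Agent.Lib.MP_32fe36_lc.ER

open Classical in
/-- Codes of pairs of a graph and a number `k` such that the obstacle number is at most `k`. -/
noncomputable def ObsLang : DecisionProblem := fun w =>
  decide (∃ (V : List ℕ) (E : List (ℕ × ℕ)) (k : ℕ), w = N487b59b3.bitEncode ((V, E), k) ∧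
    HasObsRep (listGraph (V, E)) k)

theorem result : IsCompleteFor ExistsR ObsLang :=
  complete_multi fun _ => by simp only [ObsLang, decide_eq_true_eq]

end Pool.Agent.Results.MP_32fe36_lc.ObstacleNumber
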