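import Pool.Agent.Lib.MP_32fe36_lc.ER.Single
import Pool.Agent.Lib.MP_32fe36_lc.ObsDefs

/-!
On split graphs it is hard to tell graphs with an outside-obstacle (inside-obstacle)
representation from graphs with no single-obstacle representation at all.
-/

namespace Pool.Agent.Results.MP_32fe36_lc.SplitGap

open N68a2faeb N793a5b8e Pool.Agent.Lib.MP_32fe36_lc Pool.Agent.Lib.MP_32fe36_lc.ER

theorem result (inside : Bool) (L : DecisionProblem) (hL : L ∈ ExistsR ∨ L ∈ NP) :
    ∃ f : List Bool → List ℕ × List (ℕ × ℕ), IsPolyTime f ∧ ∀ w, IsSplit (listGraph (f w)) ∧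
      (L w = true → if inside = true then HasInsideRep (listGraph (f w))
        else HasOutsideRep (listGraph (f w))) ∧
      (L w = false → ¬ ∃ C p, IsObstacle C ∧ IsVisibilityRep (listGraph (f w)) C p) := by
  obtain ⟨c, hc, h⟩ := gap hL
  refine ⟨_, hc inside, fun w => ⟨red_split _ _, fun k => ?_, fun k ⟨C, p, h1, h2⟩ => ?_⟩⟩
  · cases inside
    exacts [(red_yes ((h w).1 k)).1, (red_yes ((h w).1 k)).2]
  · simp [(h w).2 (red_no h1 h2)] at k

end Pool.Agent.Results.MP_32fe36_lc.SplitGap
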